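import Pool.Agent.Lib_MP_f5471b_cm.Final

/-!
Strong Lang-Silverman lower bound for all `K`-forms of powers of an elliptic curve with complex
multiplication.

Let `E` be an elliptic curve over the number field `K` (Weierstrass equation `W`) with complex
multiplication by the order `O = ℤ[ω]`, `ω ^ 2 = τ ω - ν`, of negative discriminant `τ ^ 2 - 4 ν`,
and let `F / K` be a finite Galois extension with group `G` over which the endomorphisms are
defined. The structure `CMAct` records the action of `O` on `E(F)`: a ring homomorphism to the
endomorphisms of the group `E(F)` such that `[α]` is given on `x`-coordinates by a rational function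
`A / B` of degree `N(α)` with a pole at infinity, and an embedding of `O` in `F` with
`σ [α] σ⁻¹ = [σ(α)]`. The group `G` acts on `O ⊆ F`, trivially if and only if `K` contains the CM
field.

A cocycle `ρ : G → GL_g(O) = Aut(E_F ^ g)` (semilinear if `K` does not contain the CM field) defines
a form `A` of `E ^ g` over `K` with `A(K) = {P ∈ E(F) ^ g | ρ(σ) σ(P) = P for all σ}`, and every
`K`-form of `E ^ g` arises in this way when `O` is the full ring of endomorphisms of `E`; for `F`
one can take the smallest field containing the CM field over which the cocycle splits
(`IsFaithful`). A polarisation of `A` is a positive definite Hermitian matrix `M` over `O` with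
`ρ(σ)* M ρ(σ) = σ(M)`; abelian subvarieties `B` of `A` over `K` are given by the saturated
`O`-submodules `L` of `O ^ g` with `ρ(σ) σ(L) ⊆ L`, and their degree is
`r! (det T / |disc O| ^ r) ^ (1 / 2)`, where `T` is the Gram matrix of the trace form
`Tr (v* M w)` on a `ℤ`-basis of `L` and `2 r` its rank.

Idea of the proof: restriction of scalars from `O` to `ℤ` turns the form `A` into a lattice of rank
`2 g` with an action of `G`, with the operator of multiplication by `ω`. The almost shortest
characters are found by geometry of numbers, together with their images under `G` and under `ω`; if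
the obstruction lattice orthogonal to the orbit is proper, one gets alternative (a) with an
`O`-stable lattice; otherwise a counting argument on the field generated by a point of `E(F)` of
small height bounds the ramification, and the Neron-Tate height satisfies `h([α] Q) = N(α) h(Q)`.
-/

namespace Pool.Agent.Results.MP_f5471b_nt.CMForms

open LangCM LangForms NumberField WeierstrassCurve

/-- For every number field `K`, every elliptic curve `W` over `K`, every imaginary quadratic order
`O = ℤ[ω]`, `ω ^ 2 = τ ω - ν`, and every `g ≥ 1` there are `c₁, c₂ > 0` such that for every finite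
Galois extension `F / K` and every action of `O` on `W` over `F`, every form `A` of `W ^ g` given by
a cocycle `ρ` with values in `GL_g(O)`, every polarisation `M` of `A` and every `P ∈ A(K)`: either
alternative (a) holds with the constant `c₂`, or `P` is not a torsion point and
`h(P) ≥ c₁` and `h(P) ≥ c₁ R`, where `R` is the sum of `log N p / [K : ℚ]` over the primes `p` of
`K` ramified in `F`. -/
theorem result (K : Type) [Field K] [NumberField K] (W : WeierstrassCurve K) [W.IsElliptic]
    (τ ν : ℤ) (hD : τ ^ 2 < 4 * ν) (g : ℕ) (hg : 1 ≤ g) :
    ∃ c₁ c₂ : ℝ, 0 < c₁ ∧ 0 < c₂ ∧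
    ∀ (F : Type) [Field F] [NumberField F] [DecidableEq F] [Algebra K F] [IsGalois K F]
    (cm : CMAct τ ν W F) (ρ : (F ≃ₐ[K] F) → Matrix (Fin g) (Fin g) (Oq τ ν))
    (M : Matrix (Fin g) (Fin g) (Oq τ ν)) (P : Fin g → (W.baseChange F).toAffine.Point),
    IsCocycle cm ρ → IsFaithful cm ρ → IsPolFormO cm ρ M → IsKPointO cm ρ P →
    ObstructedO cm ρ M P c₂ ∨
      ((∀ n : ℕ, 1 ≤ n → n • P ≠ 0) ∧ c₁ ≤ ntM cm M P ∧ RamLe K F c₁ (ntM cm M P)) :=
  cm_forms K W τ ν hD g hg

end Pool.Agent.Results.MP_f5471b_nt.CMForms
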