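import Pool.Agent.Lib_MP_f5471b_s.RadCM

/-!
Lower bounds for the canonical height on elliptic curves (Lang's conjecture), with the exponent
`-1 / 2` of the height of the curve and with the fifth power of the Szpiro ratio, for all elliptic
curves over all number fields of bounded degree.

For every `d` there is `c > 0` such that for every number field `K` with `[K : ℚ] ≤ d`, every
elliptic curve `E` over `K` (given by an arbitrary Weierstrass equation `W`) and every point
`P ∈ E(K)` of infinite order, `ĥ(P) ≥ c max ((1 + h) ^ (-1 / 2), R ^ 5 / (1 + h + R) ^ 4)`.

Here `nt` is the absolute Neron-Tate height of the divisor `(O)`, `h = hJ W` is the absolute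
logarithmic height of the `j`-invariant, and `R = hB W` is the archimedean part of the height of
`j` plus the logarithm of the norm of the product of the primes of bad reduction, divided by
`[K : ℚ]`. There is no condition on the curve, the twists of a given curve included.

Idea of the proof. Up to a bounded error, `ĥ(m P)` is `B(m) + J(m)`, where `B(m)` is the sum over
the places `v` with `|j|_v > 1` of `L_v B₂(m θ_v) / 2` and `J(m) ≥ 0` is the sum over all places of
the logarithm of the denominator of the scaled `x`-coordinate of `m P`; here `L_v = log |j|_v`,
`B₂` is the second Bernoulli polynomial and `θ_v` is the position of `P` on the circle `ℝ / ℤ`; at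
the finite places `θ_v` is a multiple of `1 / n_v` with `n_v ≤ C L_v`. The points at which the
contribution of `v` to `J` is large form a subgroup, hence the sum of `J(m)` over `1 ≤ m ≤ N` is at
most half of the sum over `1 ≤ m ≤ 2 N`, up to `O(N)`. If `q = ĥ(P)` is small, this and the
positivity of the sums of the `B(m)` over `|m| ≤ N` give that `|B(m)|` is small on average for
`1 ≤ m ≤ 10 N`, with `N` about `2 √h`. An extremal kernel (sine weights, the least eigenvalue of a
path) shows that then, for some small `l`, the places `v` at which `l θ_v` is at distance at most
`1 / (10 N)` from `0` carry a positive multiple of `h / N` of the total mass `h`. By the large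
sieve inequality for the same sums a place with this property has `L_v ≤ C h / N`, hence `n_v < N`,
hence `l θ_v = 0`; but the mass of these places is bounded by the same inequality at a smaller
scale, which is a contradiction. When the infinite places carry more than `c √h` of the height, the
pigeonhole principle suffices. For curves with `j` of bounded height one compares with a model of
small height over an extension of degree at most `12`.

For the second bound, let `n_v = k`, so that `L_v = k log N v` and `2 k θ_v` is an integer. The
Fejér sum of the `B(m)` over the multiples `m` of `2 k`, with a number of terms which depends on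
`k`, bounds the sum of `log N v` over these places; the sum over all `k ≤ C h / R` gives
`R ^ 5 ≤ C q h ^ 4` for the primes in the denominator of `j`. At a prime of bad reduction which
does not divide `6` and at which `j` is integral, some multiple `2 P` or `3 P` is close to `O` for
the scaled equation, hence `J(6 m) ≥ (log N v) / 6` there for all `m`; this gives
`R ^ 3 ≤ C q (h + R) ^ 2` for these primes.
For `j = 0` and `j = 1728` one uses the height of `x ^ 3 / c₆` or `x ^ 2 / c₄` (for the short
equation) and an explicit Bézout identity for the duplication map on this function.
-/

namespace Pool.Agent.Results.MP_f5471b_nt.LangSqrt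

open LangForms NumberField WeierstrassCurve

/-- For every `d` there is `c > 0` such that for every number field `K` with `[K : ℚ] ≤ d`, every
elliptic curve `W` over `K` and every `P ∈ W(K)` of infinite order, the Neron-Tate height of `P` is
at least `c (1 + h) ^ (-1 / 2)` and at least `c R ^ 5 / (1 + h + R) ^ 4`, where `h = h(j)` and `R`
is the archimedean part of `h` plus the logarithm of the norm of the product of the primes of bad
reduction, divided by `[K : ℚ]`. -/
theorem result (d : ℕ) : ∃ c : ℝ, 0 < c ∧
    ∀ (K : Type) [Field K] [NumberField K] [DecidableEq K], Module.finrank ℚ K ≤ d →
    ∀ (W : WeierstrassCurve K) [W.IsElliptic] (P : W.toAffine.Point),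
      (∀ n : ℕ, 1 ≤ n → n • P ≠ 0) →
      c * max (1 / Real.sqrt (1 + hJ W)) (hB W ^ 5 / (1 + hJ W + hB W) ^ 4) ≤ nt P :=
  Sq.rad_bound d

end Pool.Agent.Results.MP_f5471b_nt.LangSqrt
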