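import Pool.Agent.Lib_MP_f5471b_p.PowR

/-!
Power form of the strong Lang-Silverman lower bound for all `K`-forms of powers of elliptic curves,
uniform in the curve and in the field `K` of bounded degree, without any condition on the curve.

Let `E` be an elliptic curve over the number field `K` (Weierstrass equation `W`), `F / K` a finite
Galois extension and `ρ : Gal(F/K) → GL_g(ℤ) = Aut(E ^ g)` an injective homomorphism, that is a
cocycle; it defines a form `A` of `E ^ g` over `K` with
`A(K) = {P ∈ E(F) ^ g | ρ(σ) σ(P) = P for all σ}`. When `E` has no complex multiplication every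
`K`-form of `E ^ g` arises in this way (take for `F` the smallest splitting field). A polarisation
of `A` is a positive definite symmetric integral matrix `M` with `ρ(σ)ᵀ M ρ(σ) = M`; abelian
subvarieties of `A` over `K` are given by the `ρ`-stable saturated sublattices `Λ` of `ℤ ^ g`, of
degree `d! det (M | Λ)`, `d` the rank of `Λ`.

The condition `hW W ≤ σ (1 + hJ W)` says that the equation `W` has coefficients of small height; by
the first statement every `j`-invariant has such an equation, and since a quadratic twist of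
`E ^ g` is a form of `E ^ g`, this is no restriction on the abelian varieties `A`.

The exponent `D g` is positive for `g ≥ 3` and tends to `3 / 5`. The bound in terms of the ramified
primes is linear.

Idea of the proof: the local heights at the archimedean places and at the places where `j` has a
pole are compared with Bernoulli polynomials up to a controlled error; the first three moments of
the height of the differences of the points of a large finite set give, for every truncation
parameter `N`, one of three separation statements (every set of more than `m` points has two points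
of difference of height at least `b`), with `(m, b) = (C, c h)`, `(C N ^ 2, c h / N ^ 2)`, or both
`(C h / N, c h ^ (1 / 3) N ^ (2 / 3))` and `(C (h / N) ^ (3 / 2), c (h N) ^ (1 / 2))`, where
`h = 1 + h(j)`. Many characters of `A` of small length for the dual form of `M` (Minkowski) give a
set of more than `m` points of small height, unless `P` is in an abelian subvariety of small degree
up to torsion of small order. The ramified primes: geometry of numbers for the dual form gives, for
every subgroup `I ≠ 1` of the Galois group, a short character of `A` whose value `Q` at `P` is moved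
by an element `σ` of `I`, or alternative (a) holds. If `I` is the inertia group at a prime `v` of
good reduction of `E`, then `σ Q` and `Q` are congruent modulo `v`, so `v` is a pole of `x(Q)` or of
`x(σ Q - Q)`.
-/

namespace Pool.Agent.Results.MP_f5471b_nt.PowerForm

open LangForms NumberField WeierstrassCurve

/-- The exponent. The first term is the maximum for `g ≤ 6`, the second for `g ≥ 6`. -/
noncomputable def D (g : ℕ) : ℝ :=
  max ((2 * (g : ℝ) ^ 2 - g - 12) / (g * (4 * g + 9)))
    ((3 * (g : ℝ) ^ 2 - 2 * g - 24) / (g * (5 * g + 14)))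

/-- (1) There is `C` such that, for all number fields `K`, every `j ∈ K` is the invariant of an
elliptic curve `W` with `hW W ≤ C (1 + h(j))`.
(2) For all `d`, `g ≥ 1` and `σ` there are `c₁, c₂ > 0` and `k` such that for every number field `K`
of degree at most `d`, every elliptic curve `W` over `K` with `hW W ≤ σ (1 + h(j))`, every form `A`
of `W ^ g`, every polarisation `M` of `A` and every `P ∈ A(K)`: either `P` is, up to torsion of
order at most `c₂`, in a proper abelian subvariety `B` over `K` of degree at most `c₂` times the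
degree of `A`, or `h_M(P) + c₂ (1 + h(j)) ≥ c₁ R`, where `R` is the sum of `log N p / [K : ℚ]` over
the primes `p` of `K` ramified in `F`, and moreover either the first alternative holds with
`c₂ (1 + h(j)) ^ k` in place of `c₂`, or `P` is not a torsion point and
`h_M(P) ≥ c₁ (det M) ^ (1 / g) (1 + h(j)) ^ (D g)`. When the coordinates of `P` are independent
(which excludes the first alternatives), the determinant `G` of their height pairing is at least
`c₁ (1 + h(j)) ^ (g D g)`, and `G ^ (1 / g) + c₂ (1 + h(j)) ≥ c₁ R` if `A` is the power of a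
quadratic twist of `W`. -/
theorem result :
    (∃ C : ℝ, 0 < C ∧ ∀ (K : Type) [Field K] [NumberField K] (j : K),
      ∃ (W : WeierstrassCurve K) (_ : W.IsElliptic), W.j = j ∧ hW W ≤ C * (1 + hJ W)) ∧
    ∀ (d g : ℕ), 1 ≤ g → ∀ (σ : ℝ), ∃ c₁ c₂ : ℝ, ∃ k : ℕ, 0 < c₁ ∧ 0 < c₂ ∧
    ∀ (K : Type) [Field K] [NumberField K], Module.finrank ℚ K ≤ d →
    ∀ (W : WeierstrassCurve K) [W.IsElliptic], hW W ≤ σ * (1 + hJ W) →
    ∀ (F : Type) [Field F] [NumberField F] [DecidableEq F] [Algebra K F] [IsGalois K F]
    (ρ : (F ≃ₐ[K] F) →* Matrix.GeneralLinearGroup (Fin g) ℤ) (M : Matrix (Fin g) (Fin g) ℤ)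
    (P : Fin g → (W.baseChange F).toAffine.Point),
    Function.Injective ρ → IsPolForm ρ M → IsKPoint ρ P →
    ((Obstructed ρ M P c₂ ∧ ¬ LinearIndependent ℤ P) ∨
      (RamLe K F c₁ (ntL M P + c₂ * (1 + hJ W)) ∧
        ((Obstructed ρ M P (c₂ * (1 + hJ W) ^ k) ∧ ¬ LinearIndependent ℤ P) ∨
          ((∀ n : ℕ, 1 ≤ n → n • P ≠ 0) ∧
            c₁ * ((M.det : ℤ) : ℝ) ^ (1 / (g : ℝ)) * (1 + hJ W) ^ D g ≤ ntL M P)))) ∧
    (LinearIndependent ℤ P →
      c₁ * (1 + hJ W) ^ (D g * g) ≤ (Matrix.of fun a b => pairX nt (P a) (P b)).det ∧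
      ((∀ s, (ρ s).val = 1 ∨ (ρ s).val = -1) →
        RamLe K F c₁ ((Matrix.of fun a b => pairX nt (P a) (P b)).det ^ (1 / (g : ℝ)) +
          c₂ * (1 + hJ W)))) := by
  refine ⟨exists_model_abs, fun d g hg σ => ?_⟩
  obtain ⟨a₁, a₂, k, ha₁, ha₂, hA⟩ := Pow.power_form_r (max d 1) (le_max_right _ _) g hg σ
  obtain ⟨b₁, b₂, hb₁, hb₂, hB⟩ := Pow.gram_form_r (max d 1) (le_max_right _ _) g hg σ
  have he : D g = Pow.dexp g := rfl
  rw [he]
  have hmin1 : min a₁ b₁ ≤ a₁ := min_le_left _ _
  have hmin2 : min a₁ b₁ ≤ b₁ := min_le_right _ _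
  have hmax1 : a₂ ≤ max a₂ b₂ := le_max_left _ _
  have hmax2 : b₂ ≤ max a₂ b₂ := le_max_right _ _
  refine ⟨min a₁ b₁, max a₂ b₂, k, lt_min ha₁ hb₁, lt_of_lt_of_le ha₂ hmax1, ?_⟩
  intro K _ _ hKd W _ hWh F _ _ _ _ _ ρ M P hρ hM hP
  have hKd1 := hKd.trans (le_max_left d 1)
  have hJn := hJ_nonneg W
  have hR : ∀ S : Finset (Ideal (𝓞 K)),
      0 ≤ (∑ p ∈ S, Real.log (Ideal.absNorm p)) / Module.finrank ℚ K := fun S =>
    div_nonneg (Finset.sum_nonneg fun p _ => Real.log_natCast_nonneg _) (Nat.cast_nonneg _)
  refine ⟨?_, fun hli => ?_⟩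
  · rcases hA K hKd1 W hWh F ρ hρ M hM.1 hM.2 P hP with ⟨h, h'⟩ | ⟨h3, h⟩
    · exact Or.inl ⟨h.mono hM.1 hmax1, h'⟩
    refine Or.inr ⟨fun S hS => ?_, ?_⟩
    · have h4 := h3 S hS
      have h5 := mul_le_mul_of_nonneg_right hmin1 (hR S)
      have h6 := mul_le_mul_of_nonneg_right hmax1 (by linarith : 0 ≤ 1 + hJ W)
      linarith
    rcases h with ⟨h, h'⟩ | ⟨h1, h2⟩
    · refine Or.inl ⟨h.mono hM.1 (mul_le_mul_of_nonneg_right hmax1 ?_), h'⟩
      exact pow_nonneg (by linarith) _
    refine Or.inr ⟨h1, le_trans ?_ h2⟩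
    have hdet : 0 ≤ ((M.det : ℤ) : ℝ) ^ (1 / (g : ℝ)) := by
      refine Real.rpow_nonneg ?_ _
      have h4 := Pow.det_ge_one M hM.1
      have h5 : (1 : ℝ) ≤ ((M.det : ℤ) : ℝ) := by exact_mod_cast h4
      linarith
    have hh : 0 ≤ (1 + hJ W) ^ Pow.dexp g := Real.rpow_nonneg (by linarith) _
    exact mul_le_mul_of_nonneg_right (mul_le_mul_of_nonneg_right hmin1 hdet) hh
  · obtain ⟨h1, h2⟩ := hB K hKd1 W hWh F ρ hρ P hli hP
    refine ⟨?_, fun hs S hS => ?_⟩
    · refine le_trans ?_ h1
      exact mul_le_mul_of_nonneg_right hmin2 (Real.rpow_nonneg (by linarith) _)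
    · have h4 := h2 hs S hS
      have h5 := mul_le_mul_of_nonneg_right hmin2 (hR S)
      have h6 := mul_le_mul_of_nonneg_right hmax2 (by linarith : 0 ≤ 1 + hJ W)
      refine h5.trans (h4.trans ?_)
      exact add_le_add le_rfl h6

end Pool.Agent.Results.MP_f5471b_nt.PowerForm
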