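import Pool.Agent.Lib_MP_f5471b_p.FinalP

/-!
Strong Lang-Silverman lower bound for all `K`-forms of powers of elliptic curves, uniform in the
curve and in the field `K` of bounded degree, with a loss which is polynomial in the number of
poles of the `j`-invariant and in the Szpiro quotient.

Let `E` be an elliptic curve over the number field `K` (Weierstrass equation `W`), `F / K` a finite
Galois extension and `ρ : Gal(F/K) → GL_g(ℤ) = Aut(E ^ g)` an injective homomorphism, that is a
cocycle; it defines a form `A` of `E ^ g` over `K` with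
`A(K) = {P ∈ E(F) ^ g | ρ(σ) σ(P) = P for all σ}`. When `E` has no complex multiplication every
`K`-form of `E ^ g` arises in this way (take for `F` the smallest splitting field). A polarisation
of `A` is a positive definite symmetric integral matrix `M` with `ρ(σ)ᵀ M ρ(σ) = M`; abelian
subvarieties of `A` over `K` are given by the `ρ`-stable saturated sublattices `Λ` of `ℤ ^ g`, of
degree `d! det (M | Λ)`, `d` the rank of `Λ`.

The condition `hW W ≤ τ (1 + hJ W)` says that the equation `W` has coefficients of small height; by
the first statement every `j`-invariant has such an equation, and since a quadratic twist of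
`E ^ g` is a form of `E ^ g`, this is no restriction on the abelian varieties `A`. The condition
`JCond j s σ` on the `j`-invariant holds for every `j` with some `s` and `σ`; it holds with `σ = 1`
when `j` has at most `s` poles, and with `s = 1` when the height of `j` is at most `σ` times one
plus the logarithm of the norm of the radical of its denominator (Szpiro).

Idea of the proof: the local heights at the archimedean places and at the places where `j` has a
pole are compared with Bernoulli polynomials up to a controlled error. If the archimedean places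
(respectively the radical, respectively the places of `T`) carry the part `1 / σ` of the height of
`j`, the first (first, second and third) moments of the local heights of the differences of the
points of a large finite set show that every set of more than `m` points has two points of
difference of height at least `b`, with `(m, b) = (C σ, c h / σ)`, `(C σ ^ 2, c h / σ ^ 2)`, and
both `(C Z, c h / Z ^ (2 / 3))` and `(C Z ^ (3 / 2), c h / Z ^ (1 / 2))`, where `h = 1 + h(j)` and
`Z = s σ ^ 2`. Many characters of `A` of small length for the dual form of `M` (Minkowski) give a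
set of more than `m` points of small height, unless `P` is in an abelian subvariety of small degree
up to torsion of small order. For the ramified primes see `PowerForm`; the constants in this part do
not depend on `K`.
-/

namespace Pool.Agent.Results.MP_f5471b_nt.UniformPoly

open LangForms NumberField WeierstrassCurve

/-- The loss `s ^ e σ ^ (2 + 4 / g)`, `e = min (2 / 3 + 2 / g) (1 / 2 + 3 / g)`. -/
noncomputable def X (g s : ℕ) (σ : ℝ) : ℝ :=
  (s : ℝ) ^ min (2 / 3 + 2 / (g : ℝ)) (1 / 2 + 3 / (g : ℝ)) * σ ^ (2 + 4 / (g : ℝ))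

/-- (1) There is `C` such that, for all number fields `K`, every `j ∈ K` is the invariant of an
elliptic curve `W` with `hW W ≤ C (1 + h(j))`.
(2) `JCond j s 1` holds when `j` has at most `s` poles.
(3) For all `d`, `g ≥ 1` and `τ` there are `c₁, c₂ > 0` such that for every number field `K` of
degree at most `d`, every elliptic curve `W` over `K` with `hW W ≤ τ (1 + h(j))`, all `s ≥ 1` and
`σ ≥ 1` with `JCond j s σ`, every form `A` of `W ^ g`, every polarisation `M` of `A` and every
`P ∈ A(K)`: either `P` is, up to torsion of order at most `c₂ (s σ ^ 2) ^ k`, in a proper abelian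
subvariety over `K` of degree at most `c₂ (s σ ^ 2) ^ k` times the degree of `A`, where
`k = 4 * 3 ^ (g ^ 2) + 2`, or `P` is not a torsion point and
`X h_M(P) ≥ c₁ (det M) ^ (1 / g) (1 + h(j))` and `X h_M(P) ≥ c₁ R`, where `X` is the loss and `R`
is the sum of `log N p / [K : ℚ]` over the primes `p` of `K` ramified in `F`. -/
theorem result :
    (∃ C : ℝ, 0 < C ∧ ∀ (K : Type) [Field K] [NumberField K] (j : K),
      ∃ (W : WeierstrassCurve K) (_ : W.IsElliptic), W.j = j ∧ hW W ≤ C * (1 + hJ W)) ∧
    (∀ (K : Type) [Field K] [NumberField K] (j : K) (s : ℕ) (T : Finset (FinitePlace K)),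
      T.card ≤ s → (∀ v ∉ T, v j ≤ 1) → JCond j s 1) ∧
    ∀ (d g : ℕ), 1 ≤ g → ∀ (τ : ℝ), ∃ c₁ c₂ : ℝ, 0 < c₁ ∧ 0 < c₂ ∧
    ∀ (K : Type) [Field K] [NumberField K], Module.finrank ℚ K ≤ d →
    ∀ (W : WeierstrassCurve K) [W.IsElliptic], hW W ≤ τ * (1 + hJ W) →
    ∀ (s : ℕ) (σ : ℝ), 1 ≤ s → 1 ≤ σ → JCond W.j s σ →
    ∀ (F : Type) [Field F] [NumberField F] [DecidableEq F] [Algebra K F] [IsGalois K F]
    (ρ : (F ≃ₐ[K] F) →* Matrix.GeneralLinearGroup (Fin g) ℤ) (M : Matrix (Fin g) (Fin g) ℤ)
    (P : Fin g → (W.baseChange F).toAffine.Point),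
    Function.Injective ρ → IsPolForm ρ M → IsKPoint ρ P →
    (Obstructed ρ M P (c₂ * (s * σ ^ 2) ^ (4 * 3 ^ (g ^ 2) + 2)) ∧ ¬ LinearIndependent ℤ P) ∨
      ((∀ n : ℕ, 1 ≤ n → n • P ≠ 0) ∧
        c₁ * ((M.det : ℤ) : ℝ) ^ (1 / (g : ℝ)) * (1 + hJ W) ≤ X g s σ * ntL M P ∧
        RamLe K F c₁ (X g s σ * ntL M P)) := by
  refine ⟨exists_model_abs, fun K _ _ j s T hT h => jcond_of_poles j s T hT h, ?_⟩
  intro d g hg τ
  obtain ⟨c₁, c₂, hc₁, hc₂, h⟩ := Pow.poly_form (max d 1) (le_max_right _ _) g hg τ
  refine ⟨c₁, c₂, hc₁, hc₂, ?_⟩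
  intro K _ _ hK W _ hWh s σ hs hσ hjc F _ _ _ _ _ ρ M P hρ hM hP
  have hX : X g s σ = Pow.loss g s σ := rfl
  rw [hX, mul_comm (s : ℝ) (σ ^ 2)]
  rcases h K (hK.trans (le_max_left _ _)) W hWh s σ hs hσ hjc F ρ hρ M hM.1 hM.2 P hP with
    h1 | ⟨h1, h2, h3⟩
  · exact Or.inl h1
  refine Or.inr ⟨h1, h2, fun S hS => le_trans ?_ (h3 S hS)⟩
  refine mul_le_mul_of_nonneg_left ?_ hc₁.le
  have := hJ_nonneg W
  linarith

end Pool.Agent.Results.MP_f5471b_nt.UniformPoly
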